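import Pool.Agent.Helper45.CF.GoalsC

/-!
# Project CF (MP_d97caa_an), stage 2, packet DSY: the common system
-/

set_option autoImplicit false

open scoped ComplexOrder ZeroAtInfty Topology ComplexConjugate NNReal
open TopologicalSpace Filter

namespace Pool.Agent.Helper12.CF2

open Pool.Agent.Helper34.CAR Pool.Agent.Helper39.CR Pool.Agent.Helper45.CF

noncomputable section

/-! ### continuity of matrix valued functions -/

theorem lip_single {I R : Type} [Fintype I] [DecidableEq I] [CStarAlgebra R] (p q : I) :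
    Continuous fun x : R => Mt.single p q x := by
  refine (LipschitzWith.of_dist_le_mul (K := 1) fun x y => ?_).continuous
  rw [dist_eq_norm, dist_eq_norm, NNReal.coe_one, one_mul]
  have h : Mt.single p q x - Mt.single p q y = Mt.single p q (x - y) := by
    ext a b
    simp only [Mt.sub_apply, Mt.single_apply]
    split_ifs <;> simp
  rw [h]
  exact Mt.norm_single_le p q (x - y)

theorem cont_mt {X I R : Type} [TopologicalSpace X] [Fintype I] [DecidableEq I] [CStarAlgebra R]
    (f : X → Mt I R) (h : ∀ p q, Continuous fun x => f x p q) : Continuous f := by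
  have h1 : f = fun x => ∑ p, ∑ q, Mt.single p q (f x p q) := by
    funext x
    exact Mt.eq_sum_single (f x)
  rw [h1]
  exact continuous_finsetSum _ fun p _ => continuous_finsetSum _ fun q _ =>
    (lip_single p q).comp (h p q)

theorem cont_entry {I R : Type} [Fintype I] [DecidableEq I] [CStarAlgebra R] (p q : I) :
    Continuous fun a : Mt I R => a p q := by
  refine (LipschitzWith.of_dist_le_mul (K := 1) fun x y => ?_).continuous
  rw [dist_eq_norm, dist_eq_norm, NNReal.coe_one, one_mul]
  exact Mt.norm_entry_le (x - y) p q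

/-! ### the two evaluations of the combined algebra -/

/-- the first component -/
def f1 (B B' : Type) [CStarAlgebra B] [CStarAlgebra B'] : Cb B B' →⋆ₐ[ℂ] B where
  toFun c := c.1
  map_one' := rfl
  map_mul' _ _ := rfl
  map_zero' := rfl
  map_add' _ _ := rfl
  commutes' _ := rfl
  map_star' _ := rfl

/-- the value of the second component -/
def f2 (B B' : Type) [CStarAlgebra B] [CStarAlgebra B'] (x : ℕ → Sphere2) :
    Cb B B' →⋆ₐ[ℂ] B' where
  toFun c := c.2 x
  map_one' := rfl
  map_mul' _ _ := rfl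
  map_zero' := rfl
  map_add' _ _ := rfl
  commutes' _ := rfl
  map_star' _ := rfl

theorem rotM_alg {B J : Type} [CStarAlgebra B] [Fintype J] [DecidableEq J] (θ : B →⋆ₐ[ℂ] B)
    (ω : B →⋆ₐ[ℂ] ℂ) (t : B →⋆ₐ[ℂ] Mt J ℂ) (y : Sphere2) (c : ℂ) (p q : (Fin 2 ⊕ Unit) ⊕ J) :
    rotM θ ω t y (algebraMap ℂ B c) p q = if p = q then algebraMap ℂ B c else 0 := by
  unfold rotM rotE
  rw [Mt.of_apply]
  split_ifs with h1 h2 h2
  · have h3 : algebraMap ℂ ℂ c = c := rfl
    rw [AlgHomClass.commutes, h3, ← add_smul]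
    simp
  · have h3 : algebraMap ℂ ℂ c = c := rfl
    rw [AlgHomClass.commutes, h3, ← add_smul]
    simp
  · rw [AlgHomClass.commutes, Mt.algebraMap_apply, if_pos h2]
  · rw [AlgHomClass.commutes, Mt.algebraMap_apply, if_neg h2]

theorem rotM_zero {B J : Type} [CStarAlgebra B] [Fintype J] [DecidableEq J] (θ : B →⋆ₐ[ℂ] B)
    (ω : B →⋆ₐ[ℂ] ℂ) (t : B →⋆ₐ[ℂ] Mt J ℂ) (y : Sphere2) (p q : (Fin 2 ⊕ Unit) ⊕ J) :
    rotM θ ω t y 0 p q = 0 := by
  have h := rotM_alg θ ω t y 0 p q
  rw [map_zero] at h
  rw [h]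
  split_ifs <;> rfl

theorem norm_map_le {I B R : Type} [Fintype I] [DecidableEq I] [CStarAlgebra B] [CStarAlgebra R]
    (f : B →⋆ₐ[ℂ] R) (a : Mt I B) : ‖Mt.map f a‖ ≤ ‖a‖ :=
  NonUnitalStarAlgHom.norm_apply_le (Mt.map f : Mt I B →⋆ₐ[ℂ] Mt I R) a

theorem t (hG : S_GREC) (hK : S_KCB) (hC : S_STC) : S_DSY := by
  intro B B' _ _ _ _ P hS
  choose K hKC using fun (i : ℕ) (p : StD B') => hK B B' P p.J p.t i
  have hsep : SeparableSpace (Cb B B') := inferInstance
  have hcen : ∀ (z : ℂ × C(ℕ → Sphere2, ℂ)) (b : Cb B B'), zcb B B' z * b = b * zcb B B' z := by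
    intro z b
    refine Prod.ext (Algebra.commutes _ _) ?_
    ext x
    exact Algebra.commutes _ _
  have hdiag : ∀ (i : ℕ) (p : StD B') (z : ℂ × C(ℕ → Sphere2, ℂ)),
      K i p (zcb B B' z) = Mt.of fun x y => if x = y then zcb B B' z else 0 := by
    intro i p z
    refine Mt.ext fun x y => Prod.ext ?_ ?_
    · refine ((hKC i p (zcb B B' z).1 (zcb B B' z).2 x y).1).trans ?_
      have h1 : (zcb B B' z).1 = algebraMap ℂ B z.1 := rfl
      rw [h1, AlgHomClass.commutes, Mt.algebraMap_apply, Mt.of_apply]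
      split_ifs <;> rfl
    · ext x'
      refine ((hKC i p (zcb B B' z).1 (zcb B B' z).2 x y).2 x').trans ?_
      have h1 : (zcb B B' z).2 x' = algebraMap ℂ B' (z.2 x') := rfl
      rw [h1, rotM_alg, Mt.of_apply]
      split_ifs <;> rfl
  obtain ⟨p, S, fS, dS, s0, e, v, huniq, hun, hcomp, happ⟩ := hG (Cb B B')
    (ℂ × C(ℕ → Sphere2, ℂ)) (zcb B B') (StD B') (fun p => (Fin 2 ⊕ Unit) ⊕ p.J) K hcen hdiag
    (fun i F ε hε => by
      obtain ⟨d, w, h1, h2, h3⟩ := hC B B' P hS i F ε hε
      exact ⟨d, w, h1, h2, h3 (K i d) (hKC i d)⟩)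
  let d : DData B' :=
    { J := fun i => (p i).J
      fJ := fun i => (p i).fJ
      dJ := fun i => (p i).dJ
      t := fun i => (p i).t
      card := fun i => (p i).card
      S := S
      fS := fS
      dS := dS
      s0 := s0
      uniq := huniq
      e := e }
  have hun1 : ∀ i, star (Mt.map (f1 B B') (v i)) * Mt.map (f1 B B') (v i) = 1 ∧
      Mt.map (f1 B B') (v i) * star (Mt.map (f1 B B') (v i)) = 1 := by
    intro i
    rw [← map_star, ← map_mul, ← map_mul, (hun i).1, (hun i).2, map_one]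
    exact ⟨rfl, rfl⟩
  have hun2 : ∀ i x, star (Mt.map (f2 B B' x) (v i)) * Mt.map (f2 B B' x) (v i) = 1 ∧
      Mt.map (f2 B B' x) (v i) * star (Mt.map (f2 B B' x) (v i)) = 1 := by
    intro i x
    rw [← map_star, ← map_mul, ← map_mul, (hun i).1, (hun i).2, map_one]
    exact ⟨rfl, rfl⟩
  have hz1 : ∀ (T : Type) [Fintype T] [DecidableEq T] (V : Mt T (Cb B B'))
      (x : T → T → ℂ × C(ℕ → Sphere2, ℂ)),
      Mt.map (f1 B B') (star V * zm (zcb B B') x * V) =
        star (Mt.map (f1 B B') V) * Mt.scal (fun a b => (x a b).1) * Mt.map (f1 B B') V := by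
    intro T _ _ V x
    rw [map_mul, map_mul, map_star]
    rfl
  have hz2 : ∀ (T : Type) [Fintype T] [DecidableEq T] (V : Mt T (Cb B B'))
      (x : T → T → ℂ × C(ℕ → Sphere2, ℂ)) (y : ℕ → Sphere2),
      Mt.map (f2 B B' y) (star V * zm (zcb B B') x * V) =
        star (Mt.map (f2 B B' y) V) * Mt.scal (fun a b => (x a b).2 y) *
          Mt.map (f2 B B' y) V := by
    intro T _ _ V x y
    rw [map_mul, map_mul, map_star]
    rfl
  refine ⟨d, ⟨fun i => Mt.map (f1 B B') (v i), hun1, ?_, ?_⟩,
    fun i => ⟨fun x => Mt.map (f2 B B' x) (v i), ?_⟩, ?_, ?_, ?_⟩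
  · -- compatibility, first component
    intro i x
    refine ⟨fun a b => (xt (e i) (fun p q => ((x p q, 0) : ℂ × C(ℕ → Sphere2, ℂ))) a b).1, ?_⟩
    refine Mt.ext fun a c => ?_
    have h1 := congrArg Prod.fst (hcomp i (fun p q => (x p q, 0)) a c)
    rw [(hKC i (p i) _ _ _ _).1] at h1
    have h2 := hz1 (S i) (v i) (fun p q => (x p q, 0))
    have h3 := hz1 (S (i + 1)) (v (i + 1)) (xt (e i) (fun p q => (x p q, 0)))
    have e1 := congrArg (fun M : Mt (S i) B => M (e i a).1 (e i c).1) h2.symm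
    refine (congrArg (fun b => kst P.θ P.ω ((p i).t.comp P.inc) b (e i a).2 (e i c).2)
      e1).trans ?_
    exact h1.trans (congrArg (fun M : Mt (S (i + 1)) B => M a c) h3)
  · -- approximation, first component
    intro j a0 ε hε
    obtain ⟨k, x, hx⟩ := happ j
      (fun k => Mt.of fun a b => ((d.sys P.inc P.θ P.ω).push j k a0 a b, 0)) (by
        intro k x y
        refine Prod.ext ?_ ?_
        · exact ((hKC (j + k) (p (j + k)) _ _ _ _).1).symm
        · ext x'
          exact (((hKC (j + k) (p (j + k)) _ _ _ _).2 x').trans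
            (rotM_zero _ _ _ _ _ _)).symm) ε hε
    refine ⟨k, fun a b => (x a b).1, ?_⟩
    have h := norm_map_le (f1 B B') ((Mt.of fun a b : S (j + k) =>
      (((d.sys P.inc P.θ P.ω).push j k a0 a b, 0) : Cb B B')) -
        star (v (j + k)) * zm (zcb B B') x * v (j + k))
    rw [map_sub, hz1] at h
    exact lt_of_le_of_lt h hx
  · -- continuity of the unitaries
    exact cont_mt _ fun a b => (v i a b).2.continuous
  · intro i
    exact ⟨ContinuousMap.ext fun x => (hun2 i x).1, ContinuousMap.ext fun x => (hun2 i x).2⟩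
  · -- compatibility, second component
    intro i x z
    refine Mt.ext fun a c => ?_
    have h1 := congrArg (fun m : Cb B B' => m.2 x)
      (hcomp i (fun p q => (0, ContinuousMap.const _ (z p q))) a c)
    have h0 := (hKC i (p i) ((star (v i) * zm (zcb B B')
      (fun p q => (0, ContinuousMap.const _ (z p q))) * v i) (e i a).1 (e i c).1).1
      ((star (v i) * zm (zcb B B')
      (fun p q => (0, ContinuousMap.const _ (z p q))) * v i) (e i a).1 (e i c).1).2
      (e i a).2 (e i c).2).2 x
    have h2 := hz2 (S i) (v i) (fun p q => (0, ContinuousMap.const _ (z p q))) x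
    have h3 := hz2 (S (i + 1)) (v (i + 1))
      (xt (e i) (fun p q => (0, ContinuousMap.const _ (z p q)))) x
    have e1 := congrArg (fun M : Mt (S i) B' => M (e i a).1 (e i c).1) h2.symm
    refine (congrArg (fun b => rotM P.θ' P.ω' (p i).t (x i) b (e i a).2 (e i c).2)
      e1).trans ?_
    refine h0.symm.trans (h1.trans ?_)
    refine (congrArg (fun M : Mt (S (i + 1)) B' => M a c) h3).trans ?_
    have h4 : (fun a b : S (i + 1) => (xt (e i) (fun p q =>
        ((0, ContinuousMap.const _ (z p q)) : ℂ × C(ℕ → Sphere2, ℂ))) a b).2 x) =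
        xt (e i) z := by
      funext a b
      unfold xt
      split_ifs <;> rfl
    rw [h4]
    rfl
  · -- approximation, second component
    intro j a ha ε hε
    obtain ⟨k, x, hx⟩ := happ j
      (fun k => Mt.of fun p q => (0, ⟨fun y => a k y p q,
        (cont_entry p q).comp (a k).continuous⟩)) (by
        intro k p' q'
        refine Prod.ext ?_ ?_
        · refine Eq.trans ?_ ((hKC (j + k) (p (j + k)) _ _ _ _).1).symm
          rw [Mt.of_apply, map_zero]
          rfl
        · ext y
          refine Eq.trans ?_ ((hKC (j + k) (p (j + k)) _ _ _ _).2 y).symm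
          exact congrArg (fun M : Mt (S (j + (k + 1))) B' => M p' q') (ha k y)) ε hε
    refine ⟨k, ⟨fun y => Mt.of fun p q => (x p q).2 y, cont_mt _ fun p q =>
      (x p q).2.continuous⟩, fun y => ?_⟩
    have h := norm_map_le (f2 B B' y) ((Mt.of fun p q => (0, ⟨fun y => a k y p q,
        (cont_entry p q).comp (a k).continuous⟩)) -
        star (v (j + k)) * zm (zcb B B') x * v (j + k))
    rw [map_sub, hz2] at h
    exact lt_of_le_of_lt h hx

end

end Pool.Agent.Helper12.CF2
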